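import Pool.Agent.X328.GM.Stm

/-!
# Part CNT of project GM: the number of critical points in a disk
-/

set_option autoImplicit false

namespace Pool.Agent.X319.GM

open Finset Polynomial Pool.Agent.W277.UB Pool.Agent.W277.UB.PlaceData
open Pool.Agent.X328.FP (wr)
open Pool.Agent.X328.GM

universe u v w

variable {k : Type v} {K : Type u} [Field k] [Field K] [Algebra k K] {Q : PlaceData.{w} k K}
  {v : Q.Pl} {s : ℤ}

lemma ord_add_eq {x y : K} (hx : x ≠ 0) (hy : Q.G v (Q.ord v x + 1) y) :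
    x + y ≠ 0 ∧ Q.ord v (x + y) = Q.ord v x := by
  by_cases hy0 : y = 0
  · subst hy0
    simp [hx]
  have h1 := hy hy0
  have hne : x + y ≠ 0 := by
    intro h
    have h2 : y = -x := by linear_combination h
    rw [h2, ord_neg hx] at h1
    omega
  refine ⟨hne, le_antisymm ?_ ?_⟩
  · by_contra hlt
    push Not at hlt
    have h3 : Q.G v (Q.ord v x + 1) (x + y) := fun _ => hlt
    have h4 : Q.G v (Q.ord v x + 1) x := by
      have := G_sub h3 hy
      rwa [add_sub_cancel_right] at this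
    have := h4 hx
    omega
  · exact Q.ord_add v x y _ hx hy0 hne le_rfl (by omega)

/-- the coefficient of index `n` dominates on the disk of size `s` -/
def Dom (Q : PlaceData.{w} k K) (v : Q.Pl) (s : ℤ) (F : K[X]) (n : ℕ) (m : ℤ) : Prop :=
  F.coeff n ≠ 0 ∧ Q.ord v (F.coeff n) = m - n * s ∧ (∀ i : ℕ, Q.G v (m - i * s) (F.coeff i)) ∧
    ∀ i : ℕ, n < i → Q.G v (m + 1 - i * s) (F.coeff i)

lemma Dom.unique {F : K[X]} {n n' : ℕ} {m m' : ℤ} (h : Dom Q v s F n m) (h' : Dom Q v s F n' m') :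
    n = n' := by
  obtain ⟨a1, a2, a3, a4⟩ := h
  obtain ⟨b1, b2, b3, b4⟩ := h'
  rcases lt_trichotomy n n' with hlt | heq | hlt
  · have c1 := a4 n' hlt b1
    have c2 := b3 n a1
    omega
  · exact heq
  · have c1 := b4 n hlt a1
    have c2 := a3 n' b1
    omega

lemma coeff_mul_X_sub_C' (F : K[X]) (z : K) (i : ℕ) :
    (F * (X - C z)).coeff i = (X * F).coeff i - z * F.coeff i := by
  rw [mul_sub, coeff_sub, mul_comm F X, coeff_mul_C, mul_comm (F.coeff i) z]

lemma Dom.mulIn {F : K[X]} {n : ℕ} {m : ℤ} (h : Dom Q v s F n m) {z : K}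
    (hz : Q.G v s z) : Dom Q v s (F * (X - C z)) (n + 1) (m + s) := by
  obtain ⟨a1, a2, a3, a4⟩ := h
  have hX : ∀ i : ℕ, Q.G v (m + s - i * s) ((X * F).coeff i) := by
    intro i
    rcases i with _ | i
    · rw [coeff_X_mul_zero]
      exact G_zero
    · rw [coeff_X_mul]
      exact G_mono (a3 i) (by push_cast; linarith)
  have hzF : ∀ i : ℕ, Q.G v (m + s - i * s) (z * F.coeff i) := fun i =>
    G_mono (G_mul hz (a3 i)) (by linarith)
  have hzF' : ∀ i : ℕ, n < i → Q.G v (m + s + 1 - i * s) (z * F.coeff i) := fun i hi =>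
    G_mono (G_mul hz (a4 i hi)) (by linarith)
  have key : (F * (X - C z)).coeff (n + 1) = F.coeff n + -(z * F.coeff (n + 1)) := by
    rw [coeff_mul_X_sub_C', coeff_X_mul, sub_eq_add_neg]
  have h1 := ord_add_eq (y := -(z * F.coeff (n + 1))) a1 (G_neg (G_mono (hzF' (n + 1) (by omega))
    (by rw [a2]; push_cast; linarith)))
  refine ⟨by rw [key]; exact h1.1, by rw [key, h1.2, a2]; push_cast; ring, fun i => ?_,
    fun i hi => ?_⟩
  · rw [coeff_mul_X_sub_C']
    exact G_sub (hX i) (hzF i)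
  · rw [coeff_mul_X_sub_C']
    obtain ⟨j, rfl⟩ : ∃ j, i = j + 1 := ⟨i - 1, by omega⟩
    refine G_sub ?_ (hzF' (j + 1) (by omega))
    rw [coeff_X_mul]
    exact G_mono (a4 j (by omega)) (by push_cast; linarith)

lemma Dom.mulOut {F : K[X]} {n : ℕ} {m : ℤ} (h : Dom Q v s F n m) {z : K} (hz0 : z ≠ 0)
    (hz : Q.ord v z < s) : Dom Q v s (F * (X - C z)) n (m + Q.ord v z) := by
  obtain ⟨a1, a2, a3, a4⟩ := h
  obtain ⟨t, ht⟩ : ∃ t, Q.ord v z = t := ⟨_, rfl⟩
  rw [ht] at hz ⊢
  have hzG : Q.G v t z := fun _ => ht.ge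
  have hX : ∀ i : ℕ, Q.G v (m + t + 1 - i * s) ((X * F).coeff i) := by
    intro i
    rcases i with _ | i
    · rw [coeff_X_mul_zero]
      exact G_zero
    · rw [coeff_X_mul]
      exact G_mono (a3 i) (by push_cast; linarith)
  have hzF : ∀ i : ℕ, Q.G v (m + t - i * s) (z * F.coeff i) := fun i =>
    G_mono (G_mul hzG (a3 i)) (by linarith)
  have hzF' : ∀ i : ℕ, n < i → Q.G v (m + t + 1 - i * s) (z * F.coeff i) := fun i hi =>
    G_mono (G_mul hzG (a4 i hi)) (by linarith)
  have hzn : z * F.coeff n ≠ 0 := mul_ne_zero hz0 a1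
  have hord : Q.ord v (z * F.coeff n) = m + t - n * s := by
    rw [Q.ord_mul v z _ hz0 a1, ht, a2]
    ring
  have key : (F * (X - C z)).coeff n = -(z * F.coeff n) + (X * F).coeff n := by
    rw [coeff_mul_X_sub_C']
    ring
  have h1 := ord_add_eq (Q := Q) (v := v) (x := -(z * F.coeff n)) (y := (X * F).coeff n)
    (neg_ne_zero.2 hzn) (G_mono (hX n) (by rw [ord_neg hzn, hord]; linarith))
  refine ⟨by rw [key]; exact h1.1, by rw [key, h1.2, ord_neg hzn, hord], fun i => ?_,
    fun i hi => ?_⟩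
  · rw [coeff_mul_X_sub_C']
    exact G_sub (G_mono (hX i) (by linarith)) (hzF i)
  · rw [coeff_mul_X_sub_C']
    exact G_sub (hX i) (hzF' i hi)

open Classical in
lemma dom_prod (a : K) (c : K) (hc : c ≠ 0) (S : Multiset K) :
    ∃ m, Dom Q v s (C c * (S.map fun z => X - C (z - a)).prod)
      (S.filter (· ∈ Dk Q v a s)).card m := by
  induction S using Multiset.induction_on with
  | empty =>
    refine ⟨Q.ord v c, ?_⟩
    rw [Multiset.filter_zero, Multiset.card_zero, Multiset.map_zero, Multiset.prod_zero, mul_one]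
    refine ⟨by simpa using hc, by simp, fun i => ?_, fun i hi => ?_⟩
    · rcases i with _ | i
      · simp only [coeff_C_zero, Nat.cast_zero, zero_mul, sub_zero]
        exact fun _ => le_rfl
      · rw [coeff_C_succ]
        exact G_zero
    · rw [coeff_C, if_neg (by omega)]
      exact G_zero
  | cons z S ih =>
    obtain ⟨m, hm⟩ := ih
    have e1 : C c * ((z ::ₘ S).map fun z => X - C (z - a)).prod =
        (C c * (S.map fun z => X - C (z - a)).prod) * (X - C (z - a)) := by
      rw [Multiset.map_cons, Multiset.prod_cons]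
      ring
    rw [e1]
    by_cases hz : z ∈ Dk Q v a s
    · rw [Multiset.filter_cons_of_pos _ hz, Multiset.card_cons]
      refine ⟨m + s, hm.mulIn ?_⟩
      intro hne
      rcases hz with hz | hz
      · exact absurd (sub_eq_zero.2 hz) hne
      · exact hz
    · rw [Multiset.filter_cons_of_neg _ hz]
      have hz' : z ≠ a ∧ ¬ s ≤ Q.ord v (z - a) := not_or.1 hz
      exact ⟨_, hm.mulOut (sub_ne_zero.2 hz'.1) (not_le.1 hz'.2)⟩

lemma dom_of_splits (a : K) (F : K[X]) (hF : F ≠ 0) (hs : F.Splits) :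
    ∃ m, Dom Q v s (taylor a F) (nr F (Dk Q v a s)) m := by
  classical
  obtain ⟨m, hm⟩ := dom_prod (Q := Q) (v := v) (s := s) a F.leadingCoeff
    (leadingCoeff_ne_zero.2 hF) F.roots
  refine ⟨m, ?_⟩
  have e : taylor a F = C F.leadingCoeff * (F.roots.map fun z => X - C (z - a)).prod := by
    conv_lhs => rw [hs.eq_prod_roots]
    rw [taylor_mul, taylor_C]
    congr 1
    generalize F.roots = S
    induction S using Multiset.induction_on with
    | empty => simp
    | cons z S ih =>
      rw [Multiset.map_cons, Multiset.prod_cons, taylor_mul, ih, Multiset.map_cons,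
        Multiset.prod_cons]
      congr 1
      rw [map_sub, taylor_X, taylor_C, C_sub]
      ring
  rw [e]
  unfold nr
  convert hm

lemma Dom.wr [CharZero k] {p q : K[X]} {n n' : ℕ} {m m' : ℤ} (hp : Dom Q v s p n m)
    (hq : Dom Q v s q n' m') (hne : n ≠ n') :
    Dom Q v s (Pool.Agent.X328.FP.wr p q) (n + n' - 1) (m + m' - s) := by
  obtain ⟨a1, a2, a3, a4⟩ := hp
  obtain ⟨b1, b2, b3, b4⟩ := hq
  have hco : ∀ J : ℕ, (Pool.Agent.X328.FP.wr p q).coeff J =
      ∑ x ∈ antidiagonal (J + 1), algebraMap k K ((x.1 : k) - (x.2 : k)) *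
        (p.coeff x.1 * q.coeff x.2) := by
    intro J
    have e1 : X * Pool.Agent.X328.FP.wr p q = (X * derivative p) * q - p * (X * derivative q) := by
      unfold Pool.Agent.X328.FP.wr
      ring
    have hd : ∀ (f : K[X]) (i : ℕ), (X * derivative f).coeff i = (i : K) * f.coeff i := by
      intro f i
      rcases i with _ | i
      · simp
      · rw [coeff_X_mul, coeff_derivative]
        push_cast
        ring
    rw [← coeff_X_mul, e1, coeff_sub, coeff_mul, coeff_mul, ← Finset.sum_sub_distrib]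
    refine Finset.sum_congr rfl fun x _ => ?_
    rw [hd, hd, map_sub, map_natCast, map_natCast]
    ring
  have hgen : ∀ (c : k) (i l : ℕ), Q.G v (m + m' - ((i + l : ℕ) : ℤ) * s)
      (algebraMap k K c * (p.coeff i * q.coeff l)) := fun c i l =>
    G_mono (G_mul (G_alg c) (G_mul (a3 i) (b3 l))) (by push_cast; linarith)
  have hstr : ∀ (c : k) (i l : ℕ), (n < i ∨ n' < l) →
      Q.G v (m + m' + 1 - ((i + l : ℕ) : ℤ) * s)
        (algebraMap k K c * (p.coeff i * q.coeff l)) := by
    intro c i l h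
    rcases h with h | h
    · exact G_mono (G_mul (G_alg c) (G_mul (a4 i h) (b3 l))) (by push_cast; linarith)
    · exact G_mono (G_mul (G_alg c) (G_mul (a3 i) (b4 l h))) (by push_cast; linarith)
  have hpos : n + n' - 1 + 1 = n + n' := by omega
  have hmem : (n, n') ∈ antidiagonal (n + n' - 1 + 1) := by
    rw [hpos]
    simp
  have hck : ((n : k) - (n' : k)) ≠ 0 := sub_ne_zero.2 (by exact_mod_cast hne)
  have hmain0 : algebraMap k K ((n : k) - (n' : k)) * (p.coeff n * q.coeff n') ≠ 0 :=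
    mul_ne_zero ((_root_.map_ne_zero _).2 hck) (mul_ne_zero a1 b1)
  have hmain : Q.ord v (algebraMap k K ((n : k) - (n' : k)) * (p.coeff n * q.coeff n')) =
      m + m' - ((n + n' : ℕ) : ℤ) * s := by
    rw [Q.ord_mul v _ _ ((_root_.map_ne_zero _).2 hck) (mul_ne_zero a1 b1), Q.ord_alg v _ hck,
      Q.ord_mul v _ _ a1 b1, a2, b2]
    push_cast
    ring
  have hrest : Q.G v (m + m' + 1 - ((n + n' : ℕ) : ℤ) * s)
      (∑ x ∈ (antidiagonal (n + n' - 1 + 1)).erase (n, n'),
        algebraMap k K ((x.1 : k) - (x.2 : k)) * (p.coeff x.1 * q.coeff x.2)) := by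
    refine G_sum _ _ fun x hx => ?_
    rw [mem_erase, HasAntidiagonal.mem_antidiagonal, hpos] at hx
    obtain ⟨i, l⟩ := x
    have h1 := hx.1
    have h2 := hx.2
    simp only [ne_eq, Prod.mk.injEq, not_and] at h1 h2
    rw [← h2]
    refine hstr _ i l ?_
    by_contra hcon
    push Not at hcon
    exact h1 (by omega) (by omega)
  have hz := ord_add_eq (Q := Q) (v := v) hmain0 (G_mono hrest (by rw [hmain]; linarith))
  have hc : (Pool.Agent.X328.FP.wr p q).coeff (n + n' - 1) =
      algebraMap k K ((n : k) - (n' : k)) * (p.coeff n * q.coeff n') +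
      ∑ x ∈ (antidiagonal (n + n' - 1 + 1)).erase (n, n'),
        algebraMap k K ((x.1 : k) - (x.2 : k)) * (p.coeff x.1 * q.coeff x.2) := by
    rw [hco, ← Finset.add_sum_erase _ _ hmem]
  refine ⟨by rw [hc]; exact hz.1, ?_, fun i => ?_, fun i hi => ?_⟩
  · rw [hc, hz.2, hmain]
    have : ((n + n' : ℕ) : ℤ) = ((n + n' - 1 : ℕ) : ℤ) + 1 := by
      rw [← hpos]; push_cast; rfl
    rw [this]
    ring
  · rw [hco]
    refine G_sum _ _ fun x hx => ?_
    rw [HasAntidiagonal.mem_antidiagonal] at hx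
    refine G_mono (hgen _ x.1 x.2) ?_
    rw [hx]
    push_cast
    linarith
  · rw [hco]
    refine G_sum _ _ fun x hx => ?_
    rw [HasAntidiagonal.mem_antidiagonal] at hx
    refine G_mono (hstr _ x.1 x.2 ?_) ?_
    · by_contra hcon
      push Not at hcon
      omega
    · rw [hx]
      push_cast
      linarith

/-- **CNT**, the number of critical points in a disk -/
theorem t_CNT : S_CNT.{u, v, w} := by
  intro k K _ _ _ _ Q v p q a s hp hq hwr hps hqs hws hne
  obtain ⟨m1, h1⟩ := dom_of_splits (Q := Q) (v := v) (s := s) a p hp hps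
  obtain ⟨m2, h2⟩ := dom_of_splits (Q := Q) (v := v) (s := s) a q hq hqs
  obtain ⟨m3, h3⟩ := dom_of_splits (Q := Q) (v := v) (s := s) a _ hwr hws
  have h4 := h1.wr h2 hne
  have h5 : Pool.Agent.X328.FP.wr (taylor a p) (taylor a q) =
      taylor a (Pool.Agent.X328.FP.wr p q) := by
    unfold Pool.Agent.X328.FP.wr
    rw [map_sub, taylor_mul, taylor_mul]
    simp only [taylor_apply, derivative_comp]
    simp
  rw [h5] at h4
  have h6 := h3.unique h4
  omega

end Pool.Agent.X319.GM
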